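import Pool.Agent.Q16.SQ.Stm

/-! NONSIM for project SQ (MP_a03157_co). -/

set_option autoImplicit false

open scoped BigOperators
open Pool.Agent.Helper549.Tri Q16.SQ

namespace Pool.Agent.Q254.SQ

theorem t_NONSIM (h1 : S_TA1) (h2 : S_IDENT) : S_NONSIM := by
  intro N ℓ θ S A κ β D m r x0 hθ htr x hx i j hi hj
  obtain ⟨c1, c2, c3, c4, c5⟩ := h1
  set m' : Fin 3 → ℤ := fun i => ∑ k, (κ i k : ℤ) * m k with hm'
  set r' : Fin 3 → ℚ := fun i => ∑ k, (κ i k : ℚ) * r k with hr'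
  have ha : ∀ (i : Fin 3) (y : ℝ), ∑ k, (κ i k : ℝ) * (m k * y + r k * Real.pi) =
      (m' i : ℝ) * y + (r' i : ℝ) * Real.pi := by
    intro i y
    rw [hm', hr']
    push_cast
    rw [Finset.sum_mul, Finset.sum_mul, ← Finset.sum_add_distrib]
    exact Finset.sum_congr rfl fun k _ => by ring
  have cN : ∀ n : ℕ, TA (fun _ => (n : ℂ)) := fun n => c1 _ (by
    have := isAlgebraic_algebraMap (R := ℚ) (A := ℂ) (n : ℚ)
    simpa using this)
  have cm : TA (fun _ => (-1 : ℂ)) := c1 _ (by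
    have := isAlgebraic_algebraMap (R := ℚ) (A := ℂ) (-1 : ℚ)
    simpa using this)
  set s : Fin 3 → ℝ → ℂ := fun k y => ((Real.sin (m k * y + r k * Real.pi) : ℝ) : ℂ) with hs
  set s' : Fin 3 → ℝ → ℂ := fun k y => ((Real.sin (m' k * y + r' k * Real.pi) : ℝ) : ℂ) with hs'
  have ts : ∀ k, TA (s k) := fun k => c4 _ _
  have ts' : ∀ k, TA (s' k) := fun k => c4 _ _
  let B : ℝ → ℂ := fun y => (β j 0 : ℂ) * s 0 y + (β j 1 : ℂ) * s 1 y + (β j 2 : ℂ) * s 2 y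
  have tB : TA B :=
    c2 _ _ (c2 _ _ (c3 _ _ (cN _) (ts 0)) (c3 _ _ (cN _) (ts 1))) (c3 _ _ (cN _) (ts 2))
  let F : ℝ → ℂ := fun y => (N : ℂ) * (s 0 y * s 1 y * s 2 y) * (s' j y * s' j y) +
    (-1) * ((s' 0 y * s' 1 y * s' 2 y) * (B y * B y))
  have tF : TA F :=
    c2 _ _ (c3 _ _ (c3 _ _ (cN _) (c3 _ _ (c3 _ _ (ts 0) (ts 1)) (ts 2))) (c3 _ _ (ts' j) (ts' j)))
      (c3 _ _ cm (c3 _ _ (c3 _ _ (c3 _ _ (ts' 0) (ts' 1)) (ts' 2)) (c3 _ _ tB tB)))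
  let t : Fin 3 → ℝ → ℝ := fun k y => Real.sin (m k * y + r k * Real.pi)
  let t' : Fin 3 → ℝ → ℝ := fun k y => Real.sin (m' k * y + r' k * Real.pi)
  let Fr : ℝ → ℝ := fun y => (N : ℝ) * (t 0 y * t 1 y * t 2 y) * t' j y ^ 2 -
    (t' 0 y * t' 1 y * t' 2 y) * (∑ k, (β j k : ℝ) * t k y) ^ 2
  have hFr : ∀ y, F y = ((Fr y : ℝ) : ℂ) := by
    intro y
    have e1 : ∀ k, s k y = ((t k y : ℝ) : ℂ) := fun _ => rfl
    have e2 : ∀ k, s' k y = ((t' k y : ℝ) : ℂ) := fun _ => rfl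
    show (N : ℂ) * (s 0 y * s 1 y * s 2 y) * (s' j y * s' j y) +
      (-1) * ((s' 0 y * s' 1 y * s' 2 y) *
        (((β j 0 : ℂ) * s 0 y + (β j 1 : ℂ) * s 1 y + (β j 2 : ℂ) * s 2 y) *
        ((β j 0 : ℂ) * s 0 y + (β j 1 : ℂ) * s 1 y + (β j 2 : ℂ) * s 2 y))) =
      (((N : ℝ) * (t 0 y * t 1 y * t 2 y) * t' j y ^ 2 -
        (t' 0 y * t' 1 y * t' 2 y) * (∑ k, (β j k : ℝ) * t k y) ^ 2 : ℝ) : ℂ)
    rw [Fin.sum_univ_three]
    simp only [e1, e2]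
    push_cast
    ring
  have hA : ∀ k, Real.sin (A k) = t' k x0 := by
    intro k
    show Real.sin (A k) = Real.sin (m' k * x0 + r' k * Real.pi)
    rw [D.angles k, ← ha k x0]
    congr 1
    exact Finset.sum_congr rfl fun l _ => by rw [hθ l]
  have hT : ∀ k, Real.sin (θ k) = t k x0 := by
    intro k
    show Real.sin (θ k) = Real.sin (m k * x0 + r k * Real.pi)
    rw [hθ k]
  have hF0 : F x0 = 0 := by
    have e := (h2 D).1 j
    simp only [hA, hT] at e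
    rw [hFr]
    have e' : Fr x0 = 0 := sub_eq_zero.2 e
    rw [e', Complex.ofReal_zero]
  have hFx : Fr x = 0 := by
    have e := c5 F tF x0 htr hF0 x
    rw [hFr] at e
    exact_mod_cast e
  have hi' : t' i x = 0 := by
    rw [ha] at hi
    exact hi
  have hj' : t' j x ≠ 0 := by
    rw [ha] at hj
    exact hj
  have hprod : t' 0 x * t' 1 x * t' 2 x = 0 := by
    fin_cases i
    · have : t' 0 x = 0 := hi'
      rw [this, zero_mul, zero_mul]
    · have : t' 1 x = 0 := hi'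
      rw [this, mul_zero, zero_mul]
    · have : t' 2 x = 0 := hi'
      rw [this, mul_zero]
  have hN : (N : ℝ) ≠ 0 := by
    intro h0
    have e := D.area
    rw [h0, zero_mul] at e
    have h3 : A 2 < Real.pi := by
      have := D.Asum
      have h4 := D.Apos 0
      have h5 := D.Apos 1
      linarith
    have h6 := Real.sin_pos_of_pos_of_lt_pi (D.Apos 2) h3
    have h7 := mul_pos (mul_pos (D.Spos 0) (D.Spos 1)) h6
    linarith
  have e : (N : ℝ) * (t 0 x * t 1 x * t 2 x) * t' j x ^ 2 = 0 := by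
    have e1 : (N : ℝ) * (t 0 x * t 1 x * t 2 x) * t' j x ^ 2 -
      (t' 0 x * t' 1 x * t' 2 x) * (∑ k, (β j k : ℝ) * t k x) ^ 2 = 0 := hFx
    rw [hprod, zero_mul, sub_zero] at e1
    exact e1
  have hx' : ∀ k, t k x ≠ 0 := hx
  exact (mul_ne_zero (mul_ne_zero hN (mul_ne_zero (mul_ne_zero (hx' 0) (hx' 1)) (hx' 2)))
    (pow_ne_zero 2 hj')) e

end Pool.Agent.Q254.SQ

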